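import Pool.Agent.H55.FFM.TE

/-!
# Row EJF of the board on maps with finite fibres: the trace of `Q / J`
-/

set_option autoImplicit false

open MvPolynomial
open Pool.Agent.H12.ZD (pmap v O Res DenseOrbit NoInv)
open Pool.Agent.H18.HIT
open Pool.Agent.H55.FFM

namespace Pool.Agent.H35.FFM

section
variable {N : ℕ} {k : Type} [Field k]

/-- the ring `k[a][1/β]` -/
def BR (β : Po N k) : Subring (KN N k) where
  carrier := {b | ∃ (n : ℕ) (g : Po N k), fr β ^ n * b = fr g}
  mul_mem' := by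
    rintro a b ⟨n, g, h⟩ ⟨n', g', h'⟩
    refine ⟨n + n', g * g', ?_⟩
    have e : fr (g * g') = fr g * fr g' := map_mul _ _ _
    rw [e, ← h, ← h']
    ring
  one_mem' := ⟨0, 1, by
    have e : fr (1 : Po N k) = 1 := map_one _
    rw [e]
    ring⟩
  add_mem' := by
    rintro a b ⟨n, g, h⟩ ⟨n', g', h'⟩
    refine ⟨n + n', β ^ n' * g + β ^ n * g', ?_⟩
    have e : fr (β ^ n' * g + β ^ n * g') = fr β ^ n' * fr g + fr β ^ n * fr g' := by
      unfold fr
      rw [map_add, map_mul, map_mul, map_pow, map_pow]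
    rw [e, ← h, ← h']
    ring
  zero_mem' := ⟨0, 0, by
    have e : fr (0 : Po N k) = 0 := map_zero _
    rw [e]
    ring⟩
  neg_mem' := by
    rintro a ⟨n, g, h⟩
    refine ⟨n, -g, ?_⟩
    have e : fr (-g) = -fr g := map_neg _ _
    rw [e, ← h]
    ring

theorem mem_BR (β : Po N k) (b : KN N k) :
    b ∈ BR β ↔ ∃ (n : ℕ) (g : Po N k), fr β ^ n * b = fr g := Iff.rfl

theorem fr_mem (β g : Po N k) : fr g ∈ BR β := ⟨0, g, by ring⟩

theorem inv_mem (β : Po N k) (hβ : β ≠ 0) : (fr β)⁻¹ ∈ BR β := by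
  refine ⟨1, 1, ?_⟩
  have h1 : fr β ≠ 0 := by
    unfold fr
    rw [Ne, FaithfulSMul.algebraMap_eq_zero_iff]
    exact hβ
  have e : fr (1 : Po N k) = 1 := map_one _
  rw [e, pow_one, mul_inv_cancel₀ h1]

/-- the value of a polynomial at the images of the variables -/
theorem aeval_ring {Ω : Type} [Field Ω] [Algebra k Ω] (σ : KN N k →+* Ω) (a : Fin N → Ω)
    (ha : ∀ i, σ (fr (X i)) = a i) (hk : ∀ c : k, σ (fr (C c)) = algebraMap k Ω c)
    (q : Po N k) : aeval a q = σ (fr q) := by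
  have h : (aeval a : Po N k →ₐ[k] Ω).toRingHom = σ.comp (algebraMap (Po N k) (KN N k)) := by
    apply MvPolynomial.ringHom_ext
    · intro c
      have := hk c
      simp only [AlgHom.toRingHom_eq_coe, RingHom.coe_coe, RingHom.comp_apply, algHom_C]
      exact this.symm
    · intro i
      simp only [AlgHom.toRingHom_eq_coe, RingHom.coe_coe, RingHom.comp_apply, aeval_X]
      exact (ha i).symm
  exact RingHom.congr_fun h q

theorem ev1_eq {Ω : Type} [Field Ω] [Algebra k Ω] (σ : KN N k →+* Ω) (a : Fin N → Ω)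
    (h : ∀ q : Po N k, aeval a q = σ (fr q)) (t : Ω) (P : Polynomial (Po N k))
    (w : KN N k) (m : Polynomial (KN N k))
    (hP : P.map (algebraMap (Po N k) (KN N k)) = Polynomial.C w * m) :
    ev1 a t P = σ w * m.eval₂ σ t := by
  have e : (aeval a : Po N k →ₐ[k] Ω).toRingHom = σ.comp (algebraMap (Po N k) (KN N k)) :=
    RingHom.ext h
  unfold ev1
  rw [e, ← Polynomial.eval₂_map, hP, Polynomial.eval₂_mul, Polynomial.eval₂_C]

theorem ev3_up {Ω : Type} [Field Ω] [Algebra k Ω] (a y : Fin N → Ω) (q : Po N k) :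
    ev3 a y (up q) = aeval y q := by
  unfold ev3 up
  rw [MvPolynomial.eval₂_map, MvPolynomial.aeval_def]
  congr 1
  ext c
  simp

theorem ev3_mul {Ω : Type} [Field Ω] [Algebra k Ω] (a y : Fin N → Ω) (q q' : PP N k) :
    ev3 a y (q * q') = ev3 a y q * ev3 a y q' := by
  unfold ev3
  rw [MvPolynomial.eval₂_mul]

theorem ev3_det {Ω : Type} [Field Ω] [Algebra k Ω] (a y : Fin N → Ω)
    (c : Fin N → Fin N → PP N k) :
    ev3 a y (Matrix.of fun j i => c j i).det = (Matrix.of fun j i => ev3 a y (c j i)).det := by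
  have h := RingHom.map_det (MvPolynomial.eval₂Hom (aeval a : Po N k →ₐ[k] Ω).toRingHom y)
    (Matrix.of fun j i => c j i)
  exact h

theorem ev3_sum {Ω : Type} [Field Ω] [Algebra k Ω] (a y : Fin N → Ω) (q : PP N k) :
    ev3 a y q = ∑ d ∈ q.support, aeval a (q.coeff d) * ∏ i, y i ^ d i := by
  unfold ev3
  rw [MvPolynomial.eval₂_eq']
  rfl

end

theorem pf_EJF (hEUL : T_EUL) (hDQT : T_DQT) (hJCI : T_JCI) (hFBR : T_FBR) (hMIN : T_MIN)
    (hTRE : T_TRE) : T_EJF := by
  classical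
  intro N k _ _ G τ β hinj hext hdeh hβ hLF Q
  have : CharZero (KN N k) := by
    have h1 : CharZero (Po N k) := inferInstance
    exact charZero_of_injective_algebraMap (IsFractionRing.injective (Po N k) (KN N k))
  obtain ⟨s, hs, htr⟩ := hTRE (KN N k) (AlgebraicClosure (KN N k)) (τ : KN N k →+* KN N k) hdeh
  obtain ⟨σ, hσ⟩ : ∃ σ : KN N k →+* AlgebraicClosure (KN N k),
      σ = (algebraMap (KN N k) (AlgebraicClosure (KN N k))).comp (τ : KN N k →+* KN N k) :=
    ⟨_, rfl⟩
  have hσa : ∀ b, σ b = algebraMap (KN N k) (AlgebraicClosure (KN N k)) (τ b) := by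
    intro b
    rw [hσ]
    rfl
  obtain ⟨a, ha⟩ : ∃ a : Fin N → AlgebraicClosure (KN N k), a = fun i => σ (fr (X i)) :=
    ⟨_, rfl⟩
  have hfC : ∀ c : k, fr (C c : Po N k) = algebraMap k (KN N k) c := by
    intro c
    have : (C c : Po N k) = algebraMap k (Po N k) c := rfl
    unfold fr
    rw [this, ← IsScalarTower.algebraMap_apply]
  have hkC : ∀ c : k, σ (fr (C c : Po N k)) = algebraMap k (AlgebraicClosure (KN N k)) c := by
    intro c
    rw [hσa, hfC, AlgHom.commutes, ← IsScalarTower.algebraMap_apply]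
  have hA : ∀ q : Po N k, aeval a q = σ (fr q) := fun q =>
    aeval_ring σ a (fun i => by rw [ha]) hkC q
  -- the minimal polynomials
  have hm := fun j : Fin N => hMIN N k G τ β hinj hext hdeh hβ hLF (X j)
  choose m n P hmon hirr hroot hev2 hPm using hm
  have hd := fun j : Fin N => hDQT N k G (X j) (P j) (hev2 j)
  choose c hc using hd
  have hsep : ∀ j, (m j).Separable := fun j => (hirr j).separable
  -- the roots
  obtain ⟨Z, hZ⟩ : ∃ Z : Fin N → Finset (AlgebraicClosure (KN N k)), ∀ j t,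
      t ∈ Z j ↔ (m j).eval₂ σ t = 0 := by
    refine ⟨fun j => ((m j).map σ).roots.toFinset, fun j t => ?_⟩
    rw [Multiset.mem_toFinset, Polynomial.mem_roots ((hmon j).map σ).ne_zero,
      Polynomial.IsRoot.def, Polynomial.eval_map]
  have hfβ : fr β ≠ 0 := by
    unfold fr
    rw [Ne, FaithfulSMul.algebraMap_eq_zero_iff]
    exact hβ
  have hσβ : σ (fr β) ≠ 0 := by
    intro h
    exact hfβ (σ.injective (by rw [h, map_zero]))
  have hev : ∀ j t, ev1 a t (P j) = σ (fr β ^ n j) * (m j).eval₂ σ t := fun j t =>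
    ev1_eq σ a hA t (P j) _ _ (hPm j)
  have hdev : ∀ j t, ev1 a t (Polynomial.derivative (P j)) =
      σ (fr β ^ n j) * (Polynomial.derivative (m j)).eval₂ σ t := by
    intro j t
    apply ev1_eq σ a hA t
    rw [← Polynomial.derivative_map, hPm j, Polynomial.derivative_C_mul]
  have hdne : ∀ j, ∀ t ∈ Z j, ev1 a t (Polynomial.derivative (P j)) ≠ 0 := by
    intro j t ht
    rw [hdev]
    refine mul_ne_zero ?_ ((hsep j).eval₂_derivative_ne_zero σ ((hZ j t).1 ht))
    rw [map_pow]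
    exact pow_ne_zero _ hσβ
  -- Euler's formula
  have hcoef : ∀ j i, (m j).coeff i ∈ BR β := by
    intro j i
    refine ⟨n j, (P j).coeff i, ?_⟩
    have := congrArg (fun p => Polynomial.coeff p i) (hPm j)
    simp only [Polynomial.coeff_map, Polynomial.coeff_C_mul] at this
    exact this.symm
  have heul : ∀ (j : Fin N) (g : ℕ), ∃ b ∈ BR β,
      ∑ t ∈ Z j, t ^ g / ev1 a t (Polynomial.derivative (P j)) = σ b := by
    intro j g
    obtain ⟨b, hb, hb2⟩ := @hEUL (KN N k) (AlgebraicClosure (KN N k)) _ _ σ.toAlgebra _ (BR β)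
      (m j) (hmon j) (hcoef j) (hsep j) (Z j) (fun y => hZ j y) g
    refine ⟨(fr β)⁻¹ ^ n j * b, (BR β).mul_mem (pow_mem (inv_mem β hβ) _) hb, ?_⟩
    have hb3 : ∑ y ∈ Z j, y ^ g / (Polynomial.derivative (m j)).eval₂ σ y = σ b := hb2
    rw [map_mul, ← hb3, Finset.mul_sum]
    refine Finset.sum_congr rfl fun t _ => ?_
    rw [hdev, map_pow, map_pow, map_inv₀, inv_pow]
    field_simp
  -- the conjugates of the generic point
  obtain ⟨Y, hY⟩ : ∃ Y : (KN N k →+* AlgebraicClosure (KN N k)) → Fin N →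
      AlgebraicClosure (KN N k), Y = fun ρ i => ρ (fr (X i)) := ⟨_, rfl⟩
  have hρk : ∀ ρ ∈ s, ∀ q : Po N k, aeval (Y ρ) q = ρ (fr q) := by
    intro ρ hρ q
    apply aeval_ring ρ (Y ρ) (fun i => by rw [hY])
    intro c'
    have h1 := (hs ρ).1 hρ (algebraMap k (KN N k) c')
    have h2 : (τ : KN N k →+* KN N k) (algebraMap k (KN N k) c') = algebraMap k (KN N k) c' :=
      τ.commutes c'
    rw [h2, ← IsScalarTower.algebraMap_apply] at h1
    rw [hfC]
    exact h1
  have hρG : ∀ ρ ∈ s, ∀ i, aeval (Y ρ) (G i) = a i := by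
    intro ρ hρ i
    have h1 := (hs ρ).1 hρ (fr (X i))
    have h2 : (τ : KN N k →+* KN N k) (fr (X i)) = fr (G i) := by
      have := hext (X i)
      rw [aeval_X] at this
      exact this
    rw [hρk ρ hρ, ← h2, h1, ha]
    exact (hσa _).symm
  have hYinj : Set.InjOn Y (s : Set (KN N k →+* AlgebraicClosure (KN N k))) := by
    intro ρ hρ ρ' hρ' h
    apply IsLocalization.ringHom_ext (nonZeroDivisors (Po N k))
    refine RingHom.ext fun q => ?_
    have e1 := hρk ρ hρ q
    have e2 := hρk ρ' hρ' q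
    rw [← h, e1] at e2
    exact e2
  have hYG : ∀ ρ ∈ s, Y ρ ∈ Fintype.piFinset Z := by
    intro ρ hρ
    rw [Fintype.mem_piFinset]
    intro j
    rw [hZ]
    have h1 : ρ.comp (τ : KN N k →+* KN N k) = σ := by
      ext1 b
      rw [RingHom.comp_apply, (hs ρ).1 hρ b, hσa]
      rfl
    have h2 := congrArg ρ (hroot j)
    rw [map_zero, Polynomial.eval_map, Polynomial.hom_eval₂, h1] at h2
    rw [hY]
    exact h2
  -- the summand
  obtain ⟨D, hD⟩ : ∃ D : (Fin N → AlgebraicClosure (KN N k)) → AlgebraicClosure (KN N k),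
      D = fun y => (Matrix.of fun j i => ev3 a y (c j i)).det := ⟨_, rfl⟩
  obtain ⟨F, hF⟩ : ∃ F : (Fin N → AlgebraicClosure (KN N k)) → AlgebraicClosure (KN N k),
      F = fun y => aeval y Q * D y / ∏ j, ev1 a (y j) (Polynomial.derivative (P j)) := ⟨_, rfl⟩
  have hsum1 : ∀ ρ ∈ s, ρ (fr Q / fr (jac G)) = F (Y ρ) := by
    intro ρ hρ
    have h1 := (hJCI N k (AlgebraicClosure (KN N k)) G P c hc a (Y ρ)).1 (hρG ρ hρ)
    have h2 : ∏ j, ev1 a (Y ρ j) (Polynomial.derivative (P j)) ≠ 0 := by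
      rw [Finset.prod_ne_zero_iff]
      intro j _
      exact hdne j _ (Fintype.mem_piFinset.1 (hYG ρ hρ) j)
    rw [hF]
    simp only
    rw [map_div₀, ← hρk ρ hρ, ← hρk ρ hρ]
    have h3 : D (Y ρ) * aeval (Y ρ) (jac G) =
        ∏ j, ev1 a (Y ρ j) (Polynomial.derivative (P j)) := by
      rw [hD]
      exact h1
    rw [← h3] at h2 ⊢
    have h4 : D (Y ρ) ≠ 0 := left_ne_zero_of_mul h2
    have h5 : aeval (Y ρ) (jac G) ≠ 0 := right_ne_zero_of_mul h2
    field_simp
  have hsum2 : ∑ ρ ∈ s, ρ (fr Q / fr (jac G)) = ∑ y ∈ Fintype.piFinset Z, F y := by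
    rw [Finset.sum_congr rfl hsum1, ← Finset.sum_image (f := F) hYinj]
    refine Finset.sum_subset ?_ ?_
    · intro y hy
      obtain ⟨ρ, hρ, rfl⟩ := Finset.mem_image.1 hy
      exact hYG ρ hρ
    · intro y hy hny
      have h1 : ∃ i, aeval y (G i) ≠ a i := by
        by_contra hcon
        push Not at hcon
        obtain ⟨ρ, hρ1, hρ2, hρ3⟩ := hFBR N k G τ (AlgebraicClosure (KN N k)) hinj hext y
          (fun i => by rw [hcon i, ha]; exact hσa _)
        apply hny
        rw [Finset.mem_image]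
        refine ⟨ρ, (hs ρ).2 hρ3, ?_⟩
        rw [hY]
        funext i
        exact hρ1 i
      have h2 := (hJCI N k (AlgebraicClosure (KN N k)) G P c hc a y).2 (fun j => by
        rw [hev, (hZ j _).1 (Fintype.mem_piFinset.1 hy j), mul_zero]) h1
      rw [hF]
      simp only
      have h3 : D y = 0 := by
        rw [hD]
        exact h2
      rw [h3]
      simp
  -- expansion
  obtain ⟨q, hq⟩ : ∃ q : PP N k, q = up Q * (Matrix.of fun j i => c j i).det := ⟨_, rfl⟩
  have hFq : ∀ y, F y = ∑ d ∈ q.support, σ (fr (q.coeff d)) *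
      ∏ j, (y j ^ d j / ev1 a (y j) (Polynomial.derivative (P j))) := by
    intro y
    have h1 : aeval y Q * D y = ev3 a y q := by
      rw [hq, ev3_mul, ev3_up, ev3_det, hD]
    rw [hF]
    simp only
    rw [h1, ev3_sum, Finset.sum_div]
    refine Finset.sum_congr rfl fun d _ => ?_
    rw [Finset.prod_div_distrib, hA, mul_div_assoc]
  choose bb hbb1 hbb2 using heul
  have hsum3 : ∑ y ∈ Fintype.piFinset Z, F y =
      σ (∑ d ∈ q.support, fr (q.coeff d) * ∏ j, bb j (d j)) := by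
    rw [Finset.sum_congr rfl fun y _ => hFq y, Finset.sum_comm, map_sum]
    refine Finset.sum_congr rfl fun d _ => ?_
    rw [← Finset.mul_sum, map_mul, map_prod]
    congr 1
    rw [← Finset.prod_univ_sum Z (fun j t => t ^ d j /
      ev1 a t (Polynomial.derivative (P j)))]
    exact Finset.prod_congr rfl fun j _ => hbb2 j (d j)
  have hfin : trh (τ : KN N k →+* KN N k) (fr Q / fr (jac G)) =
      ∑ d ∈ q.support, fr (q.coeff d) * ∏ j, bb j (d j) := by
    apply σ.injective
    rw [← hsum3, ← hsum2, ← htr, hσa]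
    rfl
  rw [hfin]
  have hmem : ∑ d ∈ q.support, fr (q.coeff d) * ∏ j, bb j (d j) ∈ BR β :=
    Subring.sum_mem _ fun d _ => (BR β).mul_mem (fr_mem β _)
      (Subring.prod_mem _ fun j _ => hbb1 j (d j))
  exact hmem

end Pool.Agent.H35.FFM
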