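import Pool.Agent.H55.FFM.TE

/-!
# Row RDT of the board on maps with finite fibres: reduction of traces and norms
-/

set_option autoImplicit false

open MvPolynomial
open Pool.Agent.H12.ZD (pmap v O Res DenseOrbit NoInv)
open Pool.Agent.H18.HIT
open Pool.Agent.H55.FFM

namespace Pool.Agent.H35.FFM

/-- combinations of `b` with coefficients in the image of `σ` -/
def Sp {K L : Type} [Field K] [Field L] (σ : K →+* L) {E : ℕ} (b : Fin E → L) (x : L) : Prop :=
  ∃ c : Fin E → K, x = ∑ i, σ (c i) * b i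

theorem sp_iff {K L : Type} [Field K] [Field L] [Algebra K L] {E : ℕ} (b : Fin E → L) (x : L) :
    Sp (algebraMap K L) b x ↔ x ∈ Submodule.span K (Set.range b) := by
  rw [Submodule.mem_span_range_iff_exists_fun]
  unfold Sp
  constructor
  · rintro ⟨c, rfl⟩
    exact ⟨c, Finset.sum_congr rfl fun i _ => Algebra.smul_def _ _⟩
  · rintro ⟨c, rfl⟩
    exact ⟨c, Finset.sum_congr rfl fun i _ => Algebra.smul_def _ _⟩

theorem sp_mul {K L : Type} [Field K] [Field L] (σ : K →+* L) {E : ℕ} (b : Fin E → L)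
    (hm : ∀ i j, Sp σ b (b i * b j)) (x y : L) (hx : Sp σ b x) (hy : Sp σ b y) :
    Sp σ b (x * y) := by
  let := σ.toAlgebra
  have hm' : ∀ i j, b i * b j ∈ Submodule.span K (Set.range b) := fun i j =>
    (sp_iff b _).1 (hm i j)
  have hx' : x ∈ Submodule.span K (Set.range b) := (sp_iff b _).1 hx
  have hy' : y ∈ Submodule.span K (Set.range b) := (sp_iff b _).1 hy
  have h1 : Submodule.span K (Set.range b) * Submodule.span K (Set.range b) ≤
      Submodule.span K (Set.range b) := by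
    rw [Submodule.span_mul_span, Submodule.span_le]
    rintro _ ⟨_, ⟨i, rfl⟩, _, ⟨j, rfl⟩, rfl⟩
    exact hm' i j
  exact (sp_iff b _).2 (h1 (Submodule.mul_mem_mul hx' hy'))

theorem sp_add {K L : Type} [Field K] [Field L] (σ : K →+* L) {E : ℕ} (b : Fin E → L)
    (x y : L) (hx : Sp σ b x) (hy : Sp σ b y) : Sp σ b (x + y) := by
  obtain ⟨c, rfl⟩ := hx
  obtain ⟨d, rfl⟩ := hy
  refine ⟨fun i => c i + d i, ?_⟩
  rw [← Finset.sum_add_distrib]
  refine Finset.sum_congr rfl fun i _ => ?_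
  rw [map_add]
  ring

theorem sp_inv {K L : Type} [Field K] [Field L] (σ : K →+* L) {E : ℕ} (b : Fin E → L)
    (h1 : Sp σ b 1) (hm : ∀ i j, Sp σ b (b i * b j)) (x : L) (hx : Sp σ b x) :
    Sp σ b x⁻¹ := by
  let := σ.toAlgebra
  obtain ⟨S, hS⟩ : ∃ S : Subalgebra K L,
      Subalgebra.toSubmodule S = Submodule.span K (Set.range b) :=
    ⟨Submodule.toSubalgebra _ ((sp_iff b _).1 h1) (fun x y hx hy =>
      (sp_iff b _).1 (sp_mul σ b hm x y ((sp_iff b _).2 hx) ((sp_iff b _).2 hy))),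
      Submodule.toSubalgebra_toSubmodule _ _ _⟩
  have hfg : (Subalgebra.toSubmodule S).FG := by
    rw [hS]
    exact Submodule.fg_span (Set.finite_range b)
  have hx2 : x ∈ S := by
    rw [← Subalgebra.mem_toSubmodule, hS]
    exact (sp_iff b _).1 hx
  have hint : IsIntegral K x := IsIntegral.of_mem_of_fg S hfg x hx2
  have h3 : x⁻¹ ∈ S :=
    Subalgebra.inv_mem_of_algebraic (A := S) (x := ⟨x, hx2⟩) hint.isAlgebraic
  rw [← Subalgebra.mem_toSubmodule, hS] at h3
  exact (sp_iff b _).2 h3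

theorem sp_fin {K L : Type} [Field K] [Field L] (σ : K →+* L) {E : ℕ} (b b' : Fin E → L)
    (hspan : ∀ x, Sp σ b x)
    (hind : ∀ c : Fin E → K, ∑ i, σ (c i) * b' i = 0 → ∀ i, c i = 0) :
    @Module.finrank K L _ _ σ.toAlgebra.toModule = E ∧
    ∀ c : Fin E → K, ∑ i, σ (c i) * b i = 0 → ∀ i, c i = 0 := by
  let := σ.toAlgebra
  have htop : ⊤ ≤ Submodule.span K (Set.range b) := fun x _ => (sp_iff b x).1 (hspan x)
  have hfin : Module.Finite K L := by
    refine Module.finite_def.2 ?_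
    rw [← top_le_iff.1 htop]
    exact Submodule.fg_span (Set.finite_range b)
  have hli : LinearIndependent K b' := by
    rw [Fintype.linearIndependent_iff]
    intro c hc
    apply hind
    rw [← hc]
    exact Finset.sum_congr rfl fun i _ => (Algebra.smul_def _ _).symm
  have h1 : E ≤ Module.finrank K L := by
    have := hli.fintype_card_le_finrank
    rwa [Fintype.card_fin] at this
  have h2 : Module.finrank K L ≤ E := by
    have := finrank_range_le_card (R := K) b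
    rw [Fintype.card_fin, Set.finrank, top_le_iff.1 htop, finrank_top] at this
    exact this
  have h3 : Module.finrank K L = E := le_antisymm h2 h1
  refine ⟨h3, ?_⟩
  have hlb : LinearIndependent K b :=
    linearIndependent_of_top_le_span_of_card_eq_finrank htop (by rw [Fintype.card_fin, h3])
  intro c hc
  rw [Fintype.linearIndependent_iff] at hlb
  apply hlb
  rw [← hc]
  exact Finset.sum_congr rfl fun i _ => Algebra.smul_def _ _

section
variable {N : ℕ} {k : Type} [Field k] {G : Tup N k} {I : Ideal (Po N k)} {F : Type}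
  [Field F] [Algebra k F] {π : Po N k →ₐ[k] F} {τ' : F →ₐ[k] F}

/-- the elements of `F` are quotients -/
theorem quo (hVM : VM G I π τ') (x : F) : ∃ p q : Po N k, π q ≠ 0 ∧ π q * x = π p := by
  have hx : x ∈ IntermediateField.adjoin k (Set.range π) := by
    rw [hVM.top]
    exact IntermediateField.mem_top
  induction hx using IntermediateField.adjoin_induction with
  | mem x hx =>
    obtain ⟨u, rfl⟩ := hx
    exact ⟨u, 1, by rw [map_one]; exact one_ne_zero, by rw [map_one, one_mul]⟩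
  | algebraMap c =>
    exact ⟨algebraMap k _ c, 1, by rw [map_one]; exact one_ne_zero,
      by rw [map_one, one_mul, AlgHom.commutes]⟩
  | add x y _ _ hx hy =>
    obtain ⟨p, q, h1, h2⟩ := hx
    obtain ⟨p', q', h1', h2'⟩ := hy
    refine ⟨p * q' + q * p', q * q', by rw [map_mul]; exact mul_ne_zero h1 h1', ?_⟩
    rw [map_mul, map_add, map_mul, map_mul, ← h2, ← h2']
    ring
  | inv x _ hx =>
    obtain ⟨p, q, h1, h2⟩ := hx
    by_cases hx0 : x = 0
    · exact ⟨0, 1, by rw [map_one]; exact one_ne_zero, by rw [hx0, inv_zero, mul_zero, map_zero]⟩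
    · refine ⟨q, p, ?_, ?_⟩
      · rw [← h2]
        exact mul_ne_zero h1 hx0
      · rw [← h2, mul_assoc, mul_inv_cancel₀ hx0, mul_one]
  | mul x y _ _ hx hy =>
    obtain ⟨p, q, h1, h2⟩ := hx
    obtain ⟨p', q', h1', h2'⟩ := hy
    refine ⟨p * p', q * q', by rw [map_mul]; exact mul_ne_zero h1 h1', ?_⟩
    rw [map_mul, map_mul, ← h2, ← h2']
    ring

/-- independence over the field `τ' F` -/
theorem ind_field (hVM : VM G I π τ') {E : ℕ} {θ' : Po N k} (hind : Ind G I E θ')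
    (c : Fin E → F) (hc : ∑ i, (τ' : F →+* F) (c i) * π θ' ^ (i : ℕ) = 0) : ∀ i, c i = 0 := by
  classical
  choose p q hq hpq using fun i => quo hVM (c i)
  obtain ⟨g, hg⟩ : ∃ g : Fin E → Po N k, g = fun i => p i * ∏ j ∈ Finset.univ.erase i, q j :=
    ⟨_, rfl⟩
  have hgi : ∀ i, π (g i) = π (∏ j, q j) * c i := by
    intro i
    rw [hg, ← Finset.mul_prod_erase Finset.univ q (Finset.mem_univ i)]
    simp only [map_mul]
    rw [← hpq i]
    ring
  have hQ : π (∏ j, q j) ≠ 0 := by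
    rw [map_prod, Finset.prod_ne_zero_iff]
    exact fun j _ => hq j
  have hmem : (∑ i : Fin E, θ' ^ (i : ℕ) * aeval G (g i)) ∈ I := by
    rw [← hVM.ker, map_sum]
    have : ∀ i : Fin E, π (θ' ^ (i : ℕ) * aeval G (g i)) =
        τ' (π (∏ j, q j)) * ((τ' : F →+* F) (c i) * π θ' ^ (i : ℕ)) := by
      intro i
      rw [map_mul, map_pow, ← hVM.com, hgi, map_mul]
      have e : (τ' : F →+* F) (c i) = τ' (c i) := rfl
      rw [e]
      ring
    rw [Finset.sum_congr rfl fun i _ => this i, ← Finset.mul_sum, hc, mul_zero]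
  intro i
  have h1 := hind g hmem i
  rw [← hVM.ker, hgi] at h1
  exact (mul_eq_zero.1 h1).resolve_left hQ

/-- the powers of `θ` are a basis -/
theorem gen (hBAS : T_BAS) (hVM : VM G I π τ') {θ Δ : Po N k} {E : ℕ} (hE : 1 ≤ E)
    (hred : ∀ u : Po N k, ∃ (m : ℕ) (g : Fin E → Po N k),
      aeval G Δ ^ m * u = ∑ i : Fin E, θ ^ (i : ℕ) * aeval G (g i))
    (hΔ : Δ ∉ I) {θ' : Po N k} (hind : Ind G I E θ') :
    deh (τ' : F →+* F) = E ∧ Bas (τ' : F →+* F) (fun i : Fin E => π θ ^ (i : ℕ)) := by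
  have hΔ' : π Δ ≠ 0 := fun h => hΔ ((hVM.ker Δ).1 h)
  have hτΔ : τ' (π Δ) ≠ 0 := by
    rw [Ne, map_eq_zero]
    exact hΔ'
  have hπ : ∀ u : Po N k, Sp (τ' : F →+* F) (fun i : Fin E => π θ ^ (i : ℕ)) (π u) := by
    intro u
    obtain ⟨m, g, hg⟩ := hred u
    refine ⟨fun i => π (g i) / π Δ ^ m, ?_⟩
    have h1 := congrArg π hg
    rw [map_mul, map_pow, ← hVM.com, map_sum] at h1
    have h2 : π u = (∑ i : Fin E, π (θ ^ (i : ℕ) * aeval G (g i))) / τ' (π Δ) ^ m := by
      rw [← h1]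
      field_simp
    rw [h2, Finset.sum_div]
    refine Finset.sum_congr rfl fun i _ => ?_
    have e : (τ' : F →+* F) (π (g i) / π Δ ^ m) = τ' (π (g i)) / τ' (π Δ) ^ m := by
      have e1 : (τ' : F →+* F) (π (g i) / π Δ ^ m) = τ' (π (g i) / π Δ ^ m) := rfl
      rw [e1, map_div₀, map_pow]
    rw [e, map_mul, map_pow, ← hVM.com]
    ring
  have hm : ∀ i j : Fin E, Sp (τ' : F →+* F) (fun i : Fin E => π θ ^ (i : ℕ))
      (π θ ^ (i : ℕ) * π θ ^ (j : ℕ)) := by
    intro i j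
    have := hπ (θ ^ (i : ℕ) * θ ^ (j : ℕ))
    rw [map_mul, map_pow, map_pow] at this
    exact this
  have h1 : Sp (τ' : F →+* F) (fun i : Fin E => π θ ^ (i : ℕ)) 1 := by
    have := hπ 1
    rwa [map_one] at this
  have hall : ∀ x : F, Sp (τ' : F →+* F) (fun i : Fin E => π θ ^ (i : ℕ)) x := by
    intro x
    have hx : x ∈ IntermediateField.adjoin k (Set.range π) := by
      rw [hVM.top]
      exact IntermediateField.mem_top
    induction hx using IntermediateField.adjoin_induction with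
    | mem x hx =>
      obtain ⟨u, rfl⟩ := hx
      exact hπ u
    | algebraMap c =>
      have := hπ (algebraMap k _ c)
      rwa [AlgHom.commutes] at this
    | add x y _ _ hx hy => exact sp_add _ _ x y hx hy
    | inv x _ hx => exact sp_inv _ _ h1 hm x hx
    | mul x y _ _ hx hy => exact sp_mul _ _ hm x y hx hy
  obtain ⟨hd, hi⟩ := sp_fin (τ' : F →+* F) (fun i : Fin E => π θ ^ (i : ℕ))
    (fun i : Fin E => π θ' ^ (i : ℕ)) hall (fun c hc => ind_field hVM hind c hc)
  refine ⟨hd, ?_⟩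
  exact (hBAS F (τ' : F →+* F) E hd hE).2 _ hi

/-- the matrix of `u` -/
theorem mat (hTMX : T_TMX) (hVM : VM G I π τ') {θ Δ : Po N k} {E : ℕ} (hΔ : Δ ∉ I)
    (hB : Bas (τ' : F →+* F) (fun i : Fin E => π θ ^ (i : ℕ))) {u : Po N k} {m : ℕ}
    {g : Matrix (Fin E) (Fin E) (Po N k)}
    (hg : ∀ j : Fin E, aeval G Δ ^ m * (u * θ ^ (j : ℕ)) =
      ∑ i : Fin E, θ ^ (i : ℕ) * aeval G (g i j)) :
    π Δ ^ m * trh (τ' : F →+* F) (π u) = π (∑ j, g j j) ∧
    π Δ ^ (m * E) * nmh (τ' : F →+* F) (π u) = π g.det := by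
  have hΔ' : π Δ ≠ 0 := fun h => hΔ ((hVM.ker Δ).1 h)
  have hτΔ : τ' (π Δ) ≠ 0 := by
    rw [Ne, map_eq_zero]
    exact hΔ'
  obtain ⟨c, hc⟩ : ∃ c : Matrix (Fin E) (Fin E) F, c = (π Δ ^ m)⁻¹ • g.map π := ⟨_, rfl⟩
  have hcij : ∀ i j, c i j = (π Δ ^ m)⁻¹ * π (g i j) := by
    intro i j
    rw [hc]
    rfl
  have key : ∀ j : Fin E, π u * π θ ^ (j : ℕ) =
      ∑ i : Fin E, (τ' : F →+* F) (c i j) * π θ ^ (i : ℕ) := by
    intro j
    have h1 := congrArg π (hg j)
    rw [map_mul, map_pow, ← hVM.com, map_sum, map_mul, map_pow] at h1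
    have h2 : π u * π θ ^ (j : ℕ) =
        (τ' (π Δ) ^ m)⁻¹ * (∑ i : Fin E, π (θ ^ (i : ℕ) * aeval G (g i j))) := by
      rw [← h1]
      field_simp
    rw [h2, Finset.mul_sum]
    refine Finset.sum_congr rfl fun i _ => ?_
    have e : (τ' : F →+* F) (c i j) = (τ' (π Δ) ^ m)⁻¹ * τ' (π (g i j)) := by
      have e1 : (τ' : F →+* F) (c i j) = τ' (c i j) := rfl
      rw [e1, hcij, map_mul, map_inv₀, map_pow]
    rw [e, map_mul, map_pow, ← hVM.com]
    ring
  obtain ⟨ht, hn⟩ := (hTMX F (τ' : F →+* F) E _ hB).2 (π u) c key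
  refine ⟨?_, ?_⟩
  · rw [ht, map_sum, Finset.mul_sum]
    refine Finset.sum_congr rfl fun j _ => ?_
    rw [hcij, ← mul_assoc, mul_inv_cancel₀ (pow_ne_zero _ hΔ'), one_mul]
  · rw [hn, hc, Matrix.det_smul, Fintype.card_fin, ← mul_assoc, ← inv_pow, ← pow_mul,
      ← mul_pow, mul_inv_cancel₀ hΔ', one_pow, one_mul]
    exact ((π : Po N k →+* F).map_det g).symm

end

section
variable {N : ℕ} {k : Type} [Field k] {G : Tup N k} {θ Δ : Po N k} {Φ : Polynomial (Po N k)}
  {R : Fin N → Polynomial (Po N k)}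

theorem ev2_add (p q : Polynomial (Po N k)) : ev2 G θ (p + q) = ev2 G θ p + ev2 G θ q := by
  unfold ev2
  rw [Polynomial.eval₂_add]

theorem ev2_mul (p q : Polynomial (Po N k)) : ev2 G θ (p * q) = ev2 G θ p * ev2 G θ q := by
  unfold ev2
  rw [Polynomial.eval₂_mul]

theorem ev2_C (p : Po N k) : ev2 G θ (Polynomial.C p) = aeval G p := by
  unfold ev2
  rw [Polynomial.eval₂_C]
  rfl

/-- polynomials as polynomials in `θ` -/
theorem red1 (hP : Prim G θ Φ Δ R) (u : Po N k) :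
    ∃ (m : ℕ) (p : Polynomial (Po N k)), aeval G Δ ^ m * u = ev2 G θ p := by
  induction u using MvPolynomial.induction_on with
  | C c =>
    refine ⟨0, Polynomial.C (C c), ?_⟩
    rw [pow_zero, one_mul, ev2_C, aeval_C]
    rfl
  | add p q hp hq =>
    obtain ⟨m, P, h⟩ := hp
    obtain ⟨m', P', h'⟩ := hq
    refine ⟨m + m', Polynomial.C (Δ ^ m') * P + Polynomial.C (Δ ^ m) * P', ?_⟩
    rw [ev2_add, ev2_mul, ev2_mul, ev2_C, ev2_C, ← h, ← h', map_pow, map_pow]
    ring
  | mul_X p i hp =>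
    obtain ⟨m, P, h⟩ := hp
    refine ⟨m + 1, P * R i, ?_⟩
    rw [ev2_mul, ← h, ← hP.coord i]
    ring

theorem red2 (hP : Prim G θ Φ Δ R) (hne : Φ ≠ 1) (u : Po N k) :
    ∃ (m : ℕ) (g : Fin Φ.natDegree → Po N k),
      aeval G Δ ^ m * u = ∑ i : Fin Φ.natDegree, θ ^ (i : ℕ) * aeval G (g i) := by
  obtain ⟨m, p, h⟩ := red1 hP u
  refine ⟨m, fun i => (p %ₘ Φ).coeff i, ?_⟩
  have h1 : ev2 G θ p = ev2 G θ (p %ₘ Φ) := by
    have h2 := congrArg (ev2 G θ) (Polynomial.modByMonic_add_div p Φ)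
    rw [ev2_add, ev2_mul, hP.root, zero_mul, add_zero] at h2
    exact h2.symm
  rw [h, h1]
  unfold ev2
  rw [Polynomial.eval₂_eq_sum_range' _ (Polynomial.natDegree_modByMonic_lt p hP.monic hne),
    Finset.sum_range]
  refine Finset.sum_congr rfl fun i _ => ?_
  rw [mul_comm]
  rfl

/-- independence of the powers of `θ` -/
theorem indθ (hP : Prim G θ Φ Δ R) (τ : KN N k →ₐ[k] KN N k) (hext : Ext G τ) :
    Ind G (⊥ : Ideal (Po N k)) Φ.natDegree θ := by
  intro g hg
  rw [Ideal.mem_bot] at hg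
  have hirr : Irreducible (Φ.map (algebraMap (Po N k) (KN N k))) :=
    (hP.monic.irreducible_iff_irreducible_map_fraction_map (K := KN N k)).1 hP.irr
  obtain ⟨p, hp⟩ : ∃ p : Polynomial (Po N k),
      p = ∑ i : Fin Φ.natDegree, Polynomial.C (g i) * Polynomial.X ^ (i : ℕ) := ⟨_, rfl⟩
  have hcomp : (τ : KN N k →+* KN N k).comp (algebraMap (Po N k) (KN N k)) =
      (algebraMap (Po N k) (KN N k)).comp (aeval G : Po N k →ₐ[k] Po N k).toRingHom :=
    RingHom.ext hext
  have hev : ∀ q : Polynomial (Po N k), (q.map (algebraMap (Po N k) (KN N k))).eval₂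
      (τ : KN N k →+* KN N k) (fr θ) = fr (ev2 G θ q) := by
    intro q
    rw [Polynomial.eval₂_map, hcomp]
    unfold ev2 fr
    rw [Polynomial.hom_eval₂]
  have hp0 : ev2 G θ p = 0 := by
    rw [← hg, hp]
    unfold ev2
    rw [Polynomial.eval₂_finsetSum]
    refine Finset.sum_congr rfl fun i _ => ?_
    rw [Polynomial.eval₂_mul, Polynomial.eval₂_C, Polynomial.eval₂_X_pow, mul_comm]
    rfl
  have hdeg : p.degree < Φ.natDegree := by
    rw [hp]
    refine (Polynomial.degree_sum_le _ _).trans_lt ?_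
    rw [Finset.sup_lt_iff (WithBot.bot_lt_coe _)]
    intro i _
    refine (Polynomial.degree_C_mul_X_pow_le _ _).trans_lt ?_
    exact_mod_cast i.2
  have hpz : p = 0 := by
    by_contra hne
    have hne' : p.map (algebraMap (Po N k) (KN N k)) ≠ 0 := by
      rw [Ne, Polynomial.map_eq_zero_iff (IsFractionRing.injective _ _)]
      exact hne
    have hndvd : ¬ Φ.map (algebraMap (Po N k) (KN N k)) ∣
        p.map (algebraMap (Po N k) (KN N k)) := by
      apply Polynomial.not_dvd_of_degree_lt hne'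
      refine Polynomial.degree_map_le.trans_lt ?_
      rw [hP.monic.degree_map, Polynomial.degree_eq_natDegree hP.monic.ne_zero]
      exact hdeg
    obtain ⟨a, b, hab⟩ := (hirr.coprime_iff_not_dvd).2 hndvd
    have h1 := congrArg (fun q => Polynomial.eval₂ (τ : KN N k →+* KN N k) (fr θ) q) hab
    simp only [Polynomial.eval₂_add, Polynomial.eval₂_mul, Polynomial.eval₂_one] at h1
    rw [hev, hev, hP.root, hp0] at h1
    unfold fr at h1
    rw [map_zero, mul_zero, mul_zero, add_zero] at h1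
    exact zero_ne_one h1
  intro i
  rw [Ideal.mem_bot]
  have h2 := congrArg (fun q => Polynomial.coeff q (i : ℕ)) hpz
  simp only [Polynomial.coeff_zero] at h2
  rw [← h2, hp, Polynomial.finsetSum_coeff, Finset.sum_eq_single i]
  · rw [Polynomial.coeff_C_mul_X_pow, if_pos rfl]
  · intro j _ hj
    rw [Polynomial.coeff_C_mul_X_pow, if_neg]
    intro h
    exact hj (Fin.ext h.symm)
  · intro h
    exact absurd (Finset.mem_univ i) h

end

theorem pf_RDT (hTMX : T_TMX) (hBAS : T_BAS) : T_RDT := by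
  classical
  intro N k _ _ G τ θ Φ Δ R I F _ _ π τ' hinj hext hP hVM hΔ hInd
  obtain ⟨θ', hθ'⟩ := hInd
  have hne : Φ ≠ 1 := hP.irr.ne_one
  have hE : 1 ≤ Φ.natDegree := by
    have := (Polynomial.Monic.natDegree_pos hP.monic).2 hne
    exact this
  have hred := red2 hP hne
  -- the rational functions
  obtain ⟨ρ, hρ⟩ : ∃ ρ : Po N k →ₐ[k] KN N k, ∀ q, ρ q = fr q :=
    ⟨IsScalarTower.toAlgHom k (Po N k) (KN N k), fun q => rfl⟩
  have hρinj : Function.Injective ρ := by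
    intro a b hab
    rw [hρ, hρ] at hab
    exact IsFractionRing.injective (Po N k) (KN N k) hab
  have hVK : VM G (⊥ : Ideal (Po N k)) ρ τ := by
    refine ⟨?_, ?_, ?_⟩
    · intro q
      rw [Ideal.mem_bot, map_eq_zero_iff ρ hρinj]
    · intro q
      rw [hρ, hρ]
      exact hext q
    · rw [eq_top_iff]
      intro x _
      obtain ⟨a, b, hb, rfl⟩ := IsFractionRing.div_surjective (A := Po N k) x
      have h1 : ∀ q : Po N k, algebraMap (Po N k) (KN N k) q ∈
          IntermediateField.adjoin k (Set.range ρ) := fun q =>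
        IntermediateField.subset_adjoin _ _ ⟨q, hρ q⟩
      exact div_mem (h1 a) (h1 b)
  have hΔK : Δ ∉ (⊥ : Ideal (Po N k)) := by
    rw [Ideal.mem_bot]
    exact hP.ne
  obtain ⟨hdK, hBK⟩ := gen hBAS hVK hE hred hΔK (indθ hP τ hext)
  obtain ⟨hdF, hBF⟩ := gen hBAS hVM hE hred hΔ hθ'
  refine ⟨hE, hdK, hdF, ?_⟩
  intro u
  -- a common exponent
  obtain ⟨m, g, hg⟩ : ∃ (m : ℕ) (g : Matrix (Fin Φ.natDegree) (Fin Φ.natDegree) (Po N k)),
      ∀ j : Fin Φ.natDegree, aeval G Δ ^ m * (u * θ ^ (j : ℕ)) =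
      ∑ i : Fin Φ.natDegree, θ ^ (i : ℕ) * aeval G (g i j) := by
    choose mm gg hgg using fun j : Fin Φ.natDegree => hred (u * θ ^ (j : ℕ))
    refine ⟨∑ j, mm j, Matrix.of fun i j => Δ ^ (∑ j' ∈ Finset.univ.erase j, mm j') * gg j i, ?_⟩
    intro j
    rw [← Finset.add_sum_erase Finset.univ mm (Finset.mem_univ j), add_comm, pow_add, mul_assoc,
      hgg j, Finset.mul_sum]
    refine Finset.sum_congr rfl fun i _ => ?_
    rw [Matrix.of_apply, map_mul, map_pow]
    ring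
  obtain ⟨htK, hnK⟩ := mat hTMX hVK hΔK hBK hg
  obtain ⟨htF, hnF⟩ := mat hTMX hVM hΔ hBF hg
  obtain ⟨d, hd⟩ : ∃ d, m * Φ.natDegree = d + m := by
    refine ⟨m * Φ.natDegree - m, ?_⟩
    rw [Nat.sub_add_cancel]
    exact Nat.le_mul_of_pos_right m hE
  -- the quotient
  obtain ⟨M, hM⟩ : ∃ M : Matrix (Fin Φ.natDegree) (Fin Φ.natDegree) (Po N k),
      M = g.map (aeval G : Po N k →ₐ[k] Po N k) := ⟨_, rfl⟩
  obtain ⟨t, ht⟩ : ∃ t : Fin Φ.natDegree → Po N k, t = fun i : Fin Φ.natDegree => θ ^ (i : ℕ) := ⟨_, rfl⟩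
  have hv : Matrix.vecMul t M = (aeval G Δ ^ m * u) • t := by
    funext j
    rw [Matrix.vecMul, dotProduct, Pi.smul_apply, smul_eq_mul, ht, mul_assoc]
    simp only
    rw [hg j, hM]
    rfl
  have hv2 : M.det • t = (aeval G Δ ^ m * u) • Matrix.vecMul t M.adjugate := by
    rw [← Matrix.smul_vecMul, ← hv, Matrix.vecMul_vecMul, Matrix.mul_adjugate,
      Matrix.vecMul_smul, Matrix.vecMul_one]
  have hdet : aeval G g.det = M.det := by
    rw [hM]
    exact ((aeval G : Po N k →ₐ[k] Po N k) : Po N k →+* Po N k).map_det g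
  obtain ⟨z, hz⟩ : ∃ z : Fin Φ.natDegree, (z : ℕ) = 0 := ⟨⟨0, hE⟩, rfl⟩
  have hv3 : M.det = aeval G Δ ^ m * u * Matrix.vecMul t M.adjugate z := by
    have h1 := congrFun hv2 z
    rw [Pi.smul_apply, Pi.smul_apply, smul_eq_mul, smul_eq_mul, ht] at h1
    simp only [hz, pow_zero, mul_one] at h1
    rw [ht]
    exact h1
  refine ⟨m * Φ.natDegree, Δ ^ d * ∑ j, g j j, g.det,
    aeval G Δ ^ m * Matrix.vecMul t M.adjugate z, ?_, ?_, ?_, ?_, ?_⟩
  · rw [← hρ, ← hρ, ← hρ, map_mul, map_pow, ← htK, hd, pow_add]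
    ring
  · rw [map_mul, map_pow, ← htF, hd, pow_add]
    ring
  · rw [← hρ, ← hρ, ← hρ]
    exact hnK
  · exact hnF
  · rw [hdet, hv3]
    ring

end Pool.Agent.H35.FFM
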